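import Pool.Agent.H2.ST.Targets

/-!
# Board st2_modules, row PLA: two elements of the kernel are algebraically dependent
-/

set_option autoImplicit false

open Pool.Agent.H2.ST MvPolynomial

namespace Pool.Agent.H37.ST2

/-- the Hamiltonian on the subalgebra -/
noncomputable def DK {k : Type} [Field k] {m : ℕ} {K : Subalgebra k (Pol k m)} {φ : Pol k m}
    (h : Pln K φ) (g : K) : K := ⟨br φ g, h.bk φ h.ph g g.2⟩

theorem DK_iter {k : Type} [Field k] {m : ℕ} {K : Subalgebra k (Pol k m)} {φ : Pol k m}
    (h : Pln K φ) (g : K) (n : ℕ) : ((DK h)^[n] g : Pol k m) = (br φ)^[n] (g : Pol k m) := by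
  induction n with
  | zero => rfl
  | succ n ih =>
    rw [Function.iterate_succ_apply', Function.iterate_succ_apply', ← ih]
    rfl

theorem lnd_DK {k : Type} [Field k] {m : ℕ} {K : Subalgebra k (Pol k m)} {φ : Pol k m}
    (h : Pln K φ) : LND (DK h) := by
  refine ⟨fun a b => ?_, fun a b => ?_, fun a => ?_⟩
  · apply Subtype.ext
    exact br_add _ _ _
  · apply Subtype.ext
    exact br_mul _ _ _
  · obtain ⟨n, hn⟩ := h.nl a a.2
    refine ⟨n, ?_⟩
    apply Subtype.ext
    rw [DK_iter, hn]
    rfl

theorem pf_PLA (h1 : T_TRC) : T_PLA := by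
  classical
  intro k _ _ m K φ h f hf hind
  -- an element of degree one
  have hg : ∃ g ∈ K, br φ g ≠ 0 := by
    by_contra hcon
    push Not at hcon
    apply h.nc
    apply h.cn φ h.ph
    intro g hg
    rw [hcon g hg]
    exact dvd_zero _
  obtain ⟨g, hgK, hg0⟩ := hg
  have hnil := h.nl g hgK
  have hn0 : Nat.find hnil ≠ 0 := by
    intro h0
    have h2 := Nat.find_spec hnil
    rw [h0] at h2
    apply hg0
    have h3 : g = 0 := h2
    rw [h3, br_zero]
  have hn1 : Nat.find hnil ≠ 1 := by
    intro h0
    have h2 := Nat.find_spec hnil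
    rw [h0] at h2
    exact hg0 h2
  obtain ⟨j, hj⟩ : ∃ j, Nat.find hnil = j + 2 := ⟨Nat.find hnil - 2, by omega⟩
  have hs2 : (br φ)^[j + 2] g = 0 := by
    rw [← hj]
    exact Nat.find_spec hnil
  have hs1 : (br φ)^[j + 1] g ≠ 0 := Nat.find_min hnil (by omega)
  set s : K := (DK h)^[j] ⟨g, hgK⟩ with hs
  have hsv : (s : Pol k m) = (br φ)^[j] g := DK_iter h _ _
  have hDs : DK h s ≠ 0 := by
    intro h0
    apply hs1
    rw [Function.iterate_succ_apply', ← hsv]
    exact congrArg Subtype.val h0
  have hDDs : DK h (DK h s) = 0 := by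
    apply Subtype.ext
    show br φ (br φ (s : Pol k m)) = 0
    rw [hsv, ← Function.iterate_succ_apply' (br φ) j g,
      ← Function.iterate_succ_apply' (br φ) (j + 1) g]
    exact hs2
  -- the coefficients
  set A : Subalgebra k (Pol k m) := Algebra.adjoin k (Set.range f) with hA
  have hAK : A ≤ K := by
    rw [hA, Algebra.adjoin_le_iff]
    rintro _ ⟨i, rfl⟩
    exact (hf i).1
  have hAC : A ≤ Cen {φ} := by
    rw [hA, Algebra.adjoin_le_iff]
    rintro _ ⟨i, rfl⟩
    show f i ∈ Cen {φ}
    rw [mem_Cen]
    intro g hg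
    rw [Set.mem_singleton_iff] at hg
    rw [hg, br_anti, (hf i).2, neg_zero]
  have hbr : ∀ a ∈ A, br φ a = 0 := by
    intro a ha
    have h2 := mem_Cen.1 (hAC ha) φ rfl
    rw [br_anti, h2, neg_zero]
  have htr : Transcendental A ((s : Pol k m)) := by
    rw [transcendental_iff]
    intro P hP
    have hinj : Function.Injective (Subalgebra.inclusion hAK) := Subalgebra.inclusion_injective hAK
    have h3 := h1 K (DK h) (lnd_DK h) s hDs hDDs
      (P.map (Subalgebra.inclusion hAK : A →+* K)) (by
        intro i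
        rw [Polynomial.coeff_map]
        apply Subtype.ext
        exact hbr _ (P.coeff i).2) (by
        apply Subtype.ext
        rw [Polynomial.eval_map, Polynomial.eval₂_eq_sum]
        rw [Polynomial.aeval_def, Polynomial.eval₂_eq_sum] at hP
        unfold Polynomial.sum at hP ⊢
        rw [AddSubmonoidClass.coe_finsetSum]
        exact hP)
    refine Polynomial.map_injective (Subalgebra.inclusion hAK : A →+* K) hinj ?_
    rw [h3, Polynomial.map_zero]
  have h4 := (AlgebraicIndependent.option_iff_transcendental hind (s : Pol k m)).2 htr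
  refine h.tr (fun i => ((finSuccEquiv 2) i).elim (s : Pol k m) f) ?_
    (h4.comp (finSuccEquiv 2) (finSuccEquiv 2).injective)
  intro i
  cases hi : (finSuccEquiv 2) i with
  | none => exact s.2
  | some l => exact (hf l).1

end Pool.Agent.H37.ST2
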